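import Pool.Agent.Helper92.BO.GoalsA

/-!
# Packet BO-LIP (helper92, MP_481f43_lc): the iterated integrals are Lipschitz in the bounds
-/

namespace Pool.Agent.Helper22.BO

open MeasureTheory Set
open Pool.Agent.Helper92.BO

theorem norm_psi_le {z : ℂ} {M : ℝ} (hM : 1 ≤ M) (hz : ‖z‖ ≤ M) (x : ℝ) : ‖psi z x‖ ≤ M := by
  unfold psi
  split_ifs
  · simpa using hM
  · exact hz

theorem measurable_psi (z : ℂ) : Measurable (psi z) := by
  unfold psi
  exact Measurable.ite measurableSet_Iic measurable_const measurable_const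

theorem intervalIntegrable_psi (z : ℂ) (a b : ℝ) : IntervalIntegrable (psi z) volume a b := by
  have h : IntervalIntegrable (fun _ : ℝ => max 1 ‖z‖) volume a b := intervalIntegrable_const
  refine h.mono_fun (measurable_psi z).aestronglyMeasurable ?_
  refine Filter.Eventually.of_forall fun x => ?_
  have h1 := norm_psi_le (z := z) (le_max_left 1 ‖z‖) (le_max_right 1 ‖z‖) x
  exact h1.trans (le_abs_self _)

theorem in01_cut (G : SimpleGraph ℕ) {L : List ℕ} {v : ℕ} {b : ℕ → ℝ} (h : In01 (v :: L) b)
    {x : ℝ} (h0 : 0 ≤ x) (h1 : x ≤ 1) : In01 L (cut G v (1 - x) b) := by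
  intro u hu
  have hb := h u (List.mem_cons_of_mem v hu)
  unfold cut
  split_ifs
  · refine ⟨le_min hb.1 (by linarith), (min_le_left _ _).trans hb.2⟩
  · exact hb

theorem abs_cut_sub_le (G : SimpleGraph ℕ) (v : ℕ) (b : ℕ → ℝ) (x y : ℝ) (u : ℕ) :
    |cut G v (1 - x) b u - cut G v (1 - y) b u| ≤ |x - y| := by
  unfold cut
  split_ifs
  · refine (abs_min_sub_min_le_max _ _ _ _).trans ?_
    refine max_le (by simp) ?_
    rw [abs_sub_comm x y]
    apply le_of_eq
    congr 1
    ring
  · simp

theorem abs_cut_sub_le' (G : SimpleGraph ℕ) (v : ℕ) (b b' : ℕ → ℝ) (x : ℝ) (u : ℕ) :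
    |cut G v (1 - x) b u - cut G v (1 - x) b' u| ≤ |b u - b' u| := by
  unfold cut
  split_ifs
  · refine (abs_min_sub_min_le_max _ _ _ _).trans ?_
    exact max_le le_rfl (by simp)
  · exact le_rfl

theorem sum_map_le {L : List ℕ} {f g : ℕ → ℝ} (h : ∀ u ∈ L, f u ≤ g u) :
    (L.map f).sum ≤ (L.map g).sum := by
  induction L with
  | nil => simp
  | cons a L ih =>
    simp only [List.map_cons, List.sum_cons]
    exact add_le_add (h a (by simp)) (ih fun u hu => h u (by simp [hu]))

theorem sum_abs_nonneg (L : List ℕ) (f : ℕ → ℝ) : 0 ≤ (L.map fun u => |f u|).sum := by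
  apply List.sum_nonneg
  intro x hx
  rw [List.mem_map] at hx
  obtain ⟨u, _, rfl⟩ := hx
  exact abs_nonneg _

theorem lip : LipStmt := by
  intro G z M hM hz L
  have hM0 : (0 : ℝ) ≤ M := by linarith
  induction L with
  | nil =>
    intro b b' _ _
    simp [ZC]
  | cons v L ih =>
    -- the bounds for the integrand
    have hMk : (0 : ℝ) ≤ M ^ L.length := pow_nonneg hM0 _
    have hMk1 : (0 : ℝ) ≤ M ^ (L.length + 1) := pow_nonneg hM0 _
    have hF : ∀ b, In01 (v :: L) b → ∀ x : ℝ, 0 ≤ x → x ≤ 1 →
        ‖psi z x * ZC G z L (cut G v (1 - x) b)‖ ≤ M ^ (L.length + 1) := by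
      intro b hb x h0 h1
      rw [norm_mul, pow_succ, mul_comm (M ^ L.length)]
      have hc := in01_cut G hb h0 h1
      exact mul_le_mul (norm_psi_le hM hz x) (ih _ _ hc hc).1 (norm_nonneg _) hM0
    have hcont : ∀ b, In01 (v :: L) b →
        ContinuousOn (fun x => ZC G z L (cut G v (1 - x) b)) (Icc (0 : ℝ) 1) := by
      intro b hb
      have hl : LipschitzOnWith (Real.toNNReal (M ^ L.length * L.length))
          (fun x => ZC G z L (cut G v (1 - x) b)) (Icc (0 : ℝ) 1) := by
        apply LipschitzOnWith.of_dist_le_mul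
        intro x hx y hy
        rw [dist_eq_norm, Real.dist_eq,
          Real.coe_toNNReal _ (mul_nonneg hMk (Nat.cast_nonneg _))]
        refine (ih _ _ (in01_cut G hb hx.1 hx.2) (in01_cut G hb hy.1 hy.2)).2.trans ?_
        rw [mul_assoc]
        refine mul_le_mul_of_nonneg_left ?_ hMk
        refine (sum_map_le (g := fun _ => |x - y|)
          fun u _ => abs_cut_sub_le G v b x y u).trans ?_
        simp
      exact hl.continuousOn
    have hint : ∀ b, In01 (v :: L) b → ∀ s t : ℝ, 0 ≤ s → s ≤ 1 → 0 ≤ t → t ≤ 1 →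
        IntervalIntegrable (fun x => psi z x * ZC G z L (cut G v (1 - x) b)) volume s t := by
      intro b hb s t hs0 hs1 ht0 ht1
      refine (intervalIntegrable_psi z s t).mul_continuousOn ((hcont b hb).mono ?_)
      intro x hx
      rw [mem_uIcc] at hx
      constructor
      · rcases hx with h | h <;> linarith [h.1]
      · rcases hx with h | h <;> linarith [h.2]
    intro b b' hb hb'
    have hbv := hb v (by simp)
    have hbv' := hb' v (by simp)
    simp only [ZC, List.length_cons, List.map_cons, List.sum_cons]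
    constructor
    · refine (intervalIntegral.norm_integral_le_of_norm_le_const (C := M ^ (L.length + 1))
        ?_).trans ?_
      · intro x hx
        rw [uIoc_of_le hbv.1] at hx
        exact hF b hb x hx.1.le (hx.2.trans hbv.2)
      · rw [sub_zero, abs_of_nonneg hbv.1]
        exact mul_le_of_le_one_right hMk1 hbv.2
    · set S : ℝ := (L.map fun u => |b u - b' u|).sum with hS
      have hS0 : 0 ≤ S := sum_abs_nonneg L fun u => b u - b' u
      have e1 : (∫ x in (0 : ℝ)..(b v), psi z x * ZC G z L (cut G v (1 - x) b)) -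
          (∫ x in (0 : ℝ)..(b' v), psi z x * ZC G z L (cut G v (1 - x) b')) =
          (∫ x in (0 : ℝ)..(b v), (psi z x * ZC G z L (cut G v (1 - x) b) -
            psi z x * ZC G z L (cut G v (1 - x) b'))) +
          ∫ x in (b' v)..(b v), psi z x * ZC G z L (cut G v (1 - x) b') := by
        rw [intervalIntegral.integral_sub
          (hint b hb 0 (b v) le_rfl zero_le_one hbv.1 hbv.2)
          (hint b' hb' 0 (b v) le_rfl zero_le_one hbv.1 hbv.2)]
        have := intervalIntegral.integral_add_adjacent_intervals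
          (hint b' hb' 0 (b' v) le_rfl zero_le_one hbv'.1 hbv'.2)
          (hint b' hb' (b' v) (b v) hbv'.1 hbv'.2 hbv.1 hbv.2)
        rw [← this]
        ring
      have e2 : ‖∫ x in (0 : ℝ)..(b v), (psi z x * ZC G z L (cut G v (1 - x) b) -
            psi z x * ZC G z L (cut G v (1 - x) b'))‖ ≤ M ^ (L.length + 1) * S := by
        refine (intervalIntegral.norm_integral_le_of_norm_le_const
          (C := M ^ (L.length + 1) * S) ?_).trans ?_
        · intro x hx
          rw [uIoc_of_le hbv.1] at hx
          have hx0 := hx.1.le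
          have hx1 := hx.2.trans hbv.2
          rw [← mul_sub, norm_mul, pow_succ, mul_comm (M ^ L.length), mul_assoc]
          refine mul_le_mul (norm_psi_le hM hz x) ?_ (norm_nonneg _) hM0
          refine (ih _ _ (in01_cut G hb hx0 hx1) (in01_cut G hb' hx0 hx1)).2.trans ?_
          exact mul_le_mul_of_nonneg_left
            (sum_map_le fun u _ => abs_cut_sub_le' G v b b' x u) hMk
        · rw [sub_zero, abs_of_nonneg hbv.1]
          exact mul_le_of_le_one_right (mul_nonneg hMk1 hS0) hbv.2
      have e3 : ‖∫ x in (b' v)..(b v), psi z x * ZC G z L (cut G v (1 - x) b')‖ ≤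
          M ^ (L.length + 1) * |b v - b' v| := by
        refine intervalIntegral.norm_integral_le_of_norm_le_const ?_
        intro x hx
        rw [mem_uIoc] at hx
        refine hF b' hb' x ?_ ?_
        · rcases hx with h | h
          · linarith [h.1, hbv'.1]
          · linarith [h.1, hbv.1]
        · rcases hx with h | h
          · linarith [h.2, hbv.2]
          · linarith [h.2, hbv'.2]
      rw [e1]
      refine (norm_add_le _ _).trans ?_
      rw [mul_add]
      linarith

end Pool.Agent.Helper22.BO
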